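import Pool.Agent.H55.DK.Stm

set_option autoImplicit false

/-! Project DK: from windows `[A, 2A)` to `[0, X]` (proof of `S_COUNT`). -/

namespace Pool.Agent.H55.DK.COUNT

open Pool.Agent.H499R2.ND Finset Filter Topology
open Pool.Agent.H55.DK

theorem main : S_COUNT := by
  intro κ η hκ _ hη
  obtain ⟨I, hI⟩ := exists_pow_lt_of_lt_one (by positivity : 0 < η / 4) (by norm_num : (1 / 2 : ℝ) < 1)
  have hlog : Tendsto (fun X : ℕ => Real.log X) atTop atTop :=
    Real.tendsto_log_atTop.comp tendsto_natCast_atTop_atTop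
  filter_upwards [hlog.eventually_ge_atTop ((1 + I) / κ), eventually_ge_atTop 1,
    tendsto_natCast_atTop_atTop.eventually_ge_atTop ((4 + 3 * η) / η)] with X hLb hX1 hXc
  intro S hPB
  have hXR : (1 : ℝ) ≤ X := by exact_mod_cast hX1
  have hXpos : (0 : ℝ) < X := by linarith
  rw [div_le_iff₀ hκ] at hLb
  set L := Real.log X with hL
  have hI0 : (0 : ℝ) ≤ I := Nat.cast_nonneg _
  have hwin : ∀ i < I, PB S (((X : ℝ) + 1) / 2 ^ (i + 1)) 0 η := by
    intro i hi
    have hpos : 0 < ((X : ℝ) + 1) / 2 ^ (i + 1) := by positivity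
    have hlog' : Real.log (((X : ℝ) + 1) / 2 ^ (i + 1)) = Real.log (X + 1) - (i + 1) * Real.log 2 := by
      rw [Real.log_div (by positivity) (by positivity), Real.log_pow]
      push_cast
      ring
    have h1 : L ≤ Real.log (X + 1) := Real.log_le_log hXpos (by linarith)
    have h2 : Real.log (X + 1) ≤ L + 1 := by
      have h3 : Real.log (X + 1) ≤ Real.log (2 * X) := Real.log_le_log (by positivity) (by linarith)
      rw [Real.log_mul (by norm_num) hXpos.ne'] at h3
      have := Real.log_two_lt_d9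
      linarith
    have h3 : ((i : ℝ) + 1) * Real.log 2 ≤ I := by
      have h4 : (i : ℝ) + 1 ≤ I := by exact_mod_cast hi
      have h5 := Real.log_two_lt_d9
      have h6 := Real.log_pos (by norm_num : (1 : ℝ) < 2)
      nlinarith
    have h4 : 0 ≤ ((i : ℝ) + 1) * Real.log 2 := by
      have := Real.log_pos (by norm_num : (1 : ℝ) < 2)
      positivity
    apply hPB _ hpos
    rw [hlog', abs_le]
    constructor <;> linarith
  have h1 := Pool.Agent.TH977.IP.win_count hη.le I ((X : ℝ) + 1) (by positivity) hwin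
  refine h1.trans ?_
  have h2 : ((X : ℝ) + 1) / 2 ^ I ≤ η / 4 * (X + 1) := by
    have e : ((X : ℝ) + 1) / 2 ^ I = (1 / 2) ^ I * (X + 1) := by
      rw [one_div, inv_pow, div_eq_inv_mul]
    rw [e]
    exact mul_le_mul_of_nonneg_right hI.le (by positivity)
  rw [div_le_iff₀ hη] at hXc
  nlinarith

end Pool.Agent.H55.DK.COUNT
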